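import Pool.Agent.E8helper84.AV.Irr

/-!
# Poles of the L-functions of an elliptic curve at zeros of small order over a Galois extension

`K` is a number field, `E` an elliptic curve over `K` with minimal models `V v`, and `F/K` a finite Galois
extension with group `G`, which may be any finite group. `S` is a finite set of places of `K` containing
all places of bad reduction and all places that ramify in `F`. For a subgroup `H` of `G`, with fixed
field `M`, and a character `χ` of `H`, `LTwist V S Frob (ind H χ) s` is, for `Re s > 3/2`, the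
L-function of `E` over `M` twisted by `χ`, without the Euler factors above `S`.

The hypothesis `hmod` is that these functions are entire for all `M` such that `F/M` is solvable and all
linear characters `χ = ψ` of `Gal(F/M)`. It holds if `E` is modular over `F`: by cyclic descent `E` is then
modular over these `M`. By the theorems on potential modularity, for every `E` over a totally real or CM
field `K` there is such an `F`. For the other fields `M`, for instance for `M = K`, it is then known only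
that the functions are meromorphic.

The theorem says that `L(E/M, s)` has no poles at the points `s₀` where `L(E/F, s)` has a zero of order at
most two, for all `K ⊆ M ⊆ F`, and what can be said for all Artin twists and at real zeros of order three.

Credits: for the characters of even and odd degree at zeros of order two the theorem of helper13,
`Pool.Agent.E8helper13.Par.neg_mult`, on virtual characters of degree two is used.
-/

set_option autoImplicit false

namespace Pool.Agent.Results.MP_7ed9c3_nt.DoubleZerosTopFieldH84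

open NumberField IsDedekindDomain
open Pool.Agent.E8helper84.EH (MinimalModels eulerPoly LSeries Unramified IsFrobenius LTwist)
open Pool.Agent.R389 (ind)
open Pool.Agent.H541R3.ART (Irr)

/-- **No poles at the zeros of order at most two of the L-function over the large field.** Let `F/K` be
a Galois extension of number fields with group `G` and `E` an elliptic curve over `K`, such that for every
solvable subgroup `H` of `G`, with fixed field `M`, and every linear character `ψ` of `H` the function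
`L(E/M ⊗ ψ, s)` (without the Euler factors above `S`) is entire.

Then there are meromorphic continuations `Λ H χ` of the functions `L(E/M ⊗ χ, s)` for all subgroups `H` of
`G` and all irreducible characters `χ` of `H` (all irreducible Artin characters of `M` that are trivial on
`F`), and a meromorphic continuation `ΛK` of the L-series of `E` over `K`, such that:

1. at each `s₀` at which the continuation of the L-function of `E` over `F` has a zero of order at most two
(or no zero), `Λ H χ` has at most a simple pole, and it has no pole if the degree of `χ` is odd, for instance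
if `χ` is linear; the order of `L(E/M, s)` increases with the field `M` (it is at most its order for `M'` if
`M ⊆ M'`); and `ΛK`, multiplied by the Euler polynomials of the places in `S`, has no pole;

2. at each real `s₀` at which the L-function of `E` over `F` has a zero of order at most three, all `Λ H χ`
have at most a simple pole, and there is a homomorphism `D : G → {±1}` such that none of the `Λ H (D|H)` has
a pole: there is an element `d` of `K`, a square in `F`, such that the L-functions of the quadratic twist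
`E_d` over all fields between `K` and `F`, and those of `E` over all fields between `K(√d)` and `F`, have no
pole at `s₀`. -/
theorem result {K : Type} [Field K] [NumberField K] {F : Type} [Field F] [NumberField F]
    [Algebra K F] [IsGalois K F]
    (E : WeierstrassCurve K) [E.IsElliptic]
    (V : HeightOneSpectrum (𝓞 K) → WeierstrassCurve (𝓞 K)) (_hV : MinimalModels E V)
    (S : Finset (HeightOneSpectrum (𝓞 K))) (Frob : HeightOneSpectrum (𝓞 K) → (F ≃ₐ[K] F))
    (hS : ∀ v ∉ S, (V v).Δ ∉ v.asIdeal ∧ Unramified F v ∧ IsFrobenius v (Frob v))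
    (hmod : ∀ H : Subgroup (F ≃ₐ[K] F), Group.IsSolvable H → ∀ ψ : H →* ℂˣ,
      ∃ Λ : ℂ → ℂ, Differentiable ℂ Λ ∧ ∀ s : ℂ, 3 / 2 < s.re →
        Λ s = LTwist V S Frob (ind H (fun h => ((ψ h : ℂˣ) : ℂ))) s) :
    ∃ (Λ : ∀ H : Subgroup (F ≃ₐ[K] F), (H → ℂ) → ℂ → ℂ) (ΛK : ℂ → ℂ),
      (∀ (H : Subgroup (F ≃ₐ[K] F)), ∀ χ ∈ Irr H, (∀ s, MeromorphicAt (Λ H χ) s) ∧
        ∀ s : ℂ, 3 / 2 < s.re → Λ H χ s = LTwist V S Frob (ind H χ) s) ∧
      ((∀ s, MeromorphicAt ΛK s) ∧ ∀ s : ℂ, 3 / 2 < s.re → ΛK s = LSeries V s) ∧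
      (∀ s₀ : ℂ, meromorphicOrderAt (Λ ⊥ (fun _ => 1)) s₀ ≤ 2 →
        (∀ (H : Subgroup (F ≃ₐ[K] F)), ∀ χ ∈ Irr H, -1 ≤ meromorphicOrderAt (Λ H χ) s₀ ∧
          ((∀ m : ℕ, χ 1 ≠ 2 * m) → 0 ≤ meromorphicOrderAt (Λ H χ) s₀)) ∧
        (∀ H H' : Subgroup (F ≃ₐ[K] F), H' ≤ H →
          meromorphicOrderAt (Λ H (fun _ => 1)) s₀ ≤ meromorphicOrderAt (Λ H' (fun _ => 1)) s₀) ∧
        0 ≤ meromorphicOrderAt (fun s => (∏ v ∈ S, eulerPoly V v s) * ΛK s) s₀) ∧
      (∀ s₀ : ℂ, s₀.im = 0 → meromorphicOrderAt (Λ ⊥ (fun _ => 1)) s₀ ≤ 3 →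
        (∀ (H : Subgroup (F ≃ₐ[K] F)), ∀ χ ∈ Irr H, -1 ≤ meromorphicOrderAt (Λ H χ) s₀) ∧
        ∃ D : (F ≃ₐ[K] F) →* ℂˣ, (∀ g, D g = 1 ∨ D g = -1) ∧
          ∀ H : Subgroup (F ≃ₐ[K] F),
            0 ≤ meromorphicOrderAt (Λ H (fun h => ((D h : ℂˣ) : ℂ))) s₀) := by
  classical
  have hS' : ∀ v ∉ S, (V v).Δ ∉ v.asIdeal := fun v hv => (hS v hv).1
  have hF : Pool.Agent.E8helper84.EH.Fam (F ≃ₐ[K] F) (LTwist V S Frob) :=
    Pool.Agent.E8helper84.EH.fam hS'
  have hU : Pool.Agent.E8helper84.AV.Dom (Set.univ : Set ℂ) :=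
    ⟨isPreconnected_univ, fun _ _ => trivial⟩
  have hE : Pool.Agent.E8helper84.AV.Entire Set.univ (F ≃ₐ[K] F) (LTwist V S Frob) := by
    intro H hH ψ
    obtain ⟨Λ, h1, h2⟩ := hmod H hH ψ
    exact ⟨Λ, fun s _ => h1.analyticAt s, h2⟩
  choose! Λ hΛ using fun (H : Subgroup (F ≃ₐ[K] F)) (χ : H → ℂ) (hχ : χ ∈ Irr H) =>
    Pool.Agent.E8helper84.AV.irr_cont hF hE H hχ
  have h1irr : ∀ H : Subgroup (F ≃ₐ[K] F), (fun _ => 1 : H → ℂ) ∈ Irr H := fun H => by
    have := Pool.Agent.R389.lin_irr (1 : H →* ℂˣ)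
    simpa using this
  have htop : (ind (⊤ : Subgroup (F ≃ₐ[K] F)) (fun _ => (1 : ℂ))) = fun _ => 1 := by
    funext g
    have : Fintype (F ≃ₐ[K] F) := Fintype.ofFinite _
    have hc : (Nat.card (F ≃ₐ[K] F) : ℂ) ≠ 0 := by exact_mod_cast Nat.card_pos.ne'
    unfold ind
    rw [finsum_eq_sum_of_fintype, Finset.sum_congr rfl (fun x _ => by
      rw [show Pool.Agent.R389.ext (⊤ : Subgroup (F ≃ₐ[K] F)) (fun _ => (1 : ℂ))
        (x⁻¹ * g * x) = 1 from by simp [Pool.Agent.R389.ext]])]
    rw [Finset.sum_const, Finset.card_univ, nsmul_eq_mul, mul_one, ← Nat.card_eq_fintype_card,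
      Subgroup.card_top]
    exact inv_mul_cancel₀ hc
  have h1 : Pool.Agent.E8helper84.EH.Cont (LTwist V S Frob (fun _ => 1)) (Λ ⊤ (fun _ => 1)) := by
    have := hΛ ⊤ (fun _ => 1) (h1irr ⊤)
    rw [htop] at this
    exact ⟨fun s => this.1 s trivial, this.2⟩
  obtain ⟨ΛK, hK1, hK2⟩ := Pool.Agent.E8helper84.EH.cont_LSeries hS' h1
  have hbot := hΛ ⊥ (fun _ => 1) (h1irr ⊥)
  have hconj : ∀ s ∈ (Set.univ : Set ℂ), (starRingEnd ℂ) s ∈ (Set.univ : Set ℂ) :=
    fun _ _ => trivial
  have hlc := fun (a : (F ≃ₐ[K] F) → ℂ) (s : ℂ) =>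
    Pool.Agent.E8helper84.EH.LTwist_conj (V := V) (S := S) (Frob := Frob) a s
  refine ⟨Λ, ΛK, fun H χ hχ => ⟨fun s => (hΛ H χ hχ).1 s trivial, (hΛ H χ hχ).2⟩, hK1,
    fun s₀ h2 => ⟨fun H χ hχ => ?_, fun H H' hH => ?_, ?_⟩,
    fun s₀ hs h3 => ⟨fun H χ hχ => ?_, ?_⟩⟩
  · have h4 := Pool.Agent.E8helper84.AV.ordd_irr_two hU hF hE (Set.mem_univ s₀) hbot h2 H hχ
    rw [Pool.Agent.E8helper84.AV.ordd_eq hU hF (hΛ H χ hχ) (Set.mem_univ s₀)]
    refine ⟨?_, fun h => by exact_mod_cast h4.2 h⟩
    have h5 : (((-1 : ℤ)) : WithTop ℤ) ≤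
        ((Pool.Agent.E8helper84.AV.ordd Set.univ (LTwist V S Frob) s₀ (ind H χ) : ℤ) :
          WithTop ℤ) := by
      exact_mod_cast h4.1
    exact h5
  · rw [Pool.Agent.E8helper84.AV.ordd_eq hU hF (hΛ H _ (h1irr H)) (Set.mem_univ s₀),
      Pool.Agent.E8helper84.AV.ordd_eq hU hF (hΛ H' _ (h1irr H')) (Set.mem_univ s₀)]
    exact_mod_cast Pool.Agent.E8helper84.AV.ordd_mono hU hF hE (Set.mem_univ s₀) hbot h2 hH
  · rw [hK2, Pool.Agent.E8helper84.AV.ordd_eq hU hF (hΛ ⊤ _ (h1irr ⊤)) (Set.mem_univ s₀)]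
    have h4 := (Pool.Agent.E8helper84.AV.ordd_irr_two hU hF hE (Set.mem_univ s₀) hbot h2 ⊤
      (h1irr ⊤)).2 (fun m hm => by
        have h5 : (1 : ℂ) = ((2 * m : ℕ) : ℂ) := by rw [hm]; push_cast; rfl
        have h6 : 1 = 2 * m := by exact_mod_cast h5
        omega)
    exact_mod_cast h4
  · rw [Pool.Agent.E8helper84.AV.ordd_eq hU hF (hΛ H χ hχ) (Set.mem_univ s₀)]
    have h4 := (Pool.Agent.E8helper84.AV.ordd_irr_three hU hconj hF hE hlc (Set.mem_univ s₀) hs
      hbot h3).1 H χ hχ
    have h5 : (((-1 : ℤ)) : WithTop ℤ) ≤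
        ((Pool.Agent.E8helper84.AV.ordd Set.univ (LTwist V S Frob) s₀ (ind H χ) : ℤ) :
          WithTop ℤ) := by
      exact_mod_cast h4
    exact h5
  · obtain ⟨-, D, hD, hD2⟩ := Pool.Agent.E8helper84.AV.ordd_irr_three hU hconj hF hE hlc
      (Set.mem_univ s₀) hs hbot h3
    refine ⟨D, hD, fun H => ?_⟩
    rw [Pool.Agent.E8helper84.AV.ordd_eq hU hF
      (hΛ H (fun h => ((D h : ℂˣ) : ℂ)) (Pool.Agent.R389.lin_irr (D.comp H.subtype)))
      (Set.mem_univ s₀)]
    exact_mod_cast hD2 H

end Pool.Agent.Results.MP_7ed9c3_nt.DoubleZerosTopFieldH84
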