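import Pool.Agent.E8helper69.AQ.S

/-!
# Joint density of the boundary values of L-series of elliptic curves over number fields

`E_1, …, E_r` are elliptic curves over arbitrary number fields `K_1, …, K_r`.  No analytic
continuation is known or assumed.  Outside a set of Hausdorff dimension zero the Euler products
converge on the edge `Re s = 3/2` of the half-plane of absolute convergence, to the boundary values
`edgeValue`.

* For real exponents `ξ_1, …, ξ_r` the product `∏ |L(E_k, s)|^{ξ_k}` is bounded in the half-plane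
  `Re s > 3/2` as soon as it is bounded on arbitrarily long segments of the edge, and this holds if
  and only if its Euler product converges absolutely on the edge.
* Unless this happens for some `ξ ≠ 0`, the vectors of boundary values come near to every point of
  `ℂ^r`, with a positive proportion of the points of every interval of a certain length.
-/

set_option autoImplicit false

namespace Pool.Agent.Results.MP_7ed9c3_nt.EdgeDensityH69

open NumberField IsDedekindDomain Filter Topology MeasureTheory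
open Pool.Agent.E8helper69.AP (Recurrent)
open Pool.Agent.E8helper69.AQ (MinimalModels hasseWeil partialProduct edgeValue primeTrace)

theorem result (r : ℕ) (K : Fin r → Type) [∀ k, Field (K k)] [∀ k, NumberField (K k)]
    (E : ∀ k, WeierstrassCurve (K k)) [∀ k, (E k).IsElliptic]
    (V : ∀ k, HeightOneSpectrum (𝓞 (K k)) → WeierstrassCurve (𝓞 (K k)))
    (_ : ∀ k, MinimalModels (E k) (V k)) :
    (∀ k, dimH {τ : ℝ | ¬ (edgeValue (V k) τ ≠ 0 ∧
      Tendsto (partialProduct (V k) (3 / 2 + τ * Complex.I)) atTop (𝓝 (edgeValue (V k) τ)))} = 0) ∧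
    (∀ ξ : Fin r → ℝ, List.TFAE [
      Summable fun p : Nat.Primes =>
        |∑ k, ξ k * ((primeTrace (V k) (p : ℕ) : ℤ) : ℝ)| / ((p : ℕ) : ℝ) ^ (3 / 2 : ℝ),
      ∃ C : ℝ, ∀ s : ℂ, 3 / 2 < s.re → ∏ k, ‖hasseWeil (V k) s‖ ^ ξ k ≤ C,
      ∃ C : ℝ, ∀ H : ℝ, ∃ T : ℝ, ∀ᵐ τ ∂(volume.restrict (Set.Icc T (T + H))),
        ∏ k, ‖edgeValue (V k) τ‖ ^ ξ k ≤ C]) ∧
    ((∀ U : Set (Fin r → ℂ), IsOpen U → U.Nonempty →
        Recurrent {τ | (fun k => edgeValue (V k) τ) ∈ U}) ↔
      ∀ ξ : Fin r → ℝ, ξ ≠ 0 → ¬ Summable fun p : Nat.Primes =>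
        |∑ k, ξ k * ((primeTrace (V k) (p : ℕ) : ℤ) : ℝ)| / ((p : ℕ) : ℝ) ^ (3 / 2 : ℝ)) :=
  ⟨fun k => Pool.Agent.E8helper69.AP.edgeValue_spec (V k),
    Pool.Agent.E8helper69.AP.product_criterion V, Pool.Agent.E8helper69.AP.joint_criterion V⟩

end Pool.Agent.Results.MP_7ed9c3_nt.EdgeDensityH69
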