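import Pool.Agent.E8helper69.AQ.Z

/-!
# The joint limit law of the boundary values of L-series of elliptic curves over number fields

`E_1, …, E_r` are elliptic curves over arbitrary number fields `K_1, …, K_r`.  No analytic
continuation is known or assumed.  The Euler products converge almost everywhere on the edge
`Re s = 3/2` of the half-plane of absolute convergence, to the boundary values `edgeValue`.  The
vectors of boundary values have a joint limit law, uniformly in the position of the window
`[T, T + H]`: the law of the random Euler product whose factors at the prime numbers `p` are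
evaluated at independent random points `3/2 + iθ_p`.
-/

set_option autoImplicit false

namespace Pool.Agent.Results.MP_7ed9c3_nt.EdgeLimitLawH69

open NumberField IsDedekindDomain Filter Topology MeasureTheory
open Pool.Agent.E8helper69.AQ (MinimalModels edgeValue randomProduct uniformLaw)

theorem result (r : ℕ) (K : Fin r → Type) [∀ k, Field (K k)] [∀ k, NumberField (K k)]
    (E : ∀ k, WeierstrassCurve (K k)) [∀ k, (E k).IsElliptic]
    (V : ∀ k, HeightOneSpectrum (𝓞 (K k)) → WeierstrassCurve (𝓞 (K k)))
    (_ : ∀ k, MinimalModels (E k) (V k)) :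
    ∃ μ : Measure (Fin r → ℂ), IsProbabilityMeasure μ ∧ (∀ k, μ {z | z k = 0} = 0) ∧
      ∀ φ : (Fin r → ℂ) → ℝ, ContinuousOn φ {z | ∀ k, z k ≠ 0} → (∃ C : ℝ, ∀ z, |φ z| ≤ C) →
        (∀ η : ℝ, 0 < η → ∃ H₀ : ℝ, 0 < H₀ ∧ ∀ H : ℝ, H₀ ≤ H → ∀ T : ℝ,
          |H⁻¹ * (∫ τ in T..(T + H), φ fun k => edgeValue (V k) τ) - ∫ z, φ z ∂μ| ≤ η) ∧
        Tendsto (fun X : ℕ => ∫ θ, φ (fun k => randomProduct (V k) X θ) ∂(uniformLaw X)) atTop
          (𝓝 (∫ z, φ z ∂μ)) :=
  Pool.Agent.E8helper69.AP.edge_limit_law V

end Pool.Agent.Results.MP_7ed9c3_nt.EdgeLimitLawH69
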