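import Pool.Agent.E8helper14.RSE.Final

/-!
# Modular elliptic curves over the rationals, over all number fields: square sums on the edge line

For a number field `F`, `D ∈ F^*` and an elliptic curve `E` over `ℚ` let `E_D / F` be the twist of `E`
over `F` by the quadratic character of `F(√D)/F`.  Also for modular `E` the analytic continuation of
`L(E_D / F, s)` is known only for special fields `F`.  The theorem is about the zeros and the poles of
the products `∏ L(E_{D_k} / F_k, s)^{c_k}`, for arbitrary number fields `F_k` and integers `c_k`, on the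
line `Re s = 3/2`, the edge of the half plane of absolute convergence.  These products are the functions
`L(E ⊗ ψ, s)` for the virtual characters `ψ = ∑ c_k χ_{D_k}` of the absolute Galois group of `ℚ`, where
`χ_D` is the induced character.  The definitions are in `Pool.Agent.E8helper14.RSE.Defs`,
`Pool.Agent.TH322.BC.Defs` and `Pool.Agent.Y722.EP.Defs`.
-/

set_option autoImplicit false

namespace Pool.Agent.Results.MP_7ed9c3_nt.EdgeSquareSumsH14

open Pool.Agent.E8helper14.RSE

/-- **The square sums of the orders and of the sizes on the edge.**  Let `E_i` be modular elliptic curves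
over `ℚ`, no two of them isogenous, `ψ = ∑ c_k χ_{D_k}`, `m_{i,τ}` the order of
`∏ L(E_{i,D_k} / F_k, s)^{c_k}` at `3/2 + iτ`, if there are continuations, and `x_{i,τ}(ε)` its size
`log |·| / log(1/ε)` at `3/2 + iτ + ε`; `w_τ = 1` if `τ = 0` and `w_τ = 2` if `τ ≠ 0`.
1. For finite sets of points `(i, τ)`, all small `ε > 0` and both choices of the sign in `x⁺ = max(±x, 0)`:
`∑ w_τ (x⁺)² + mean (|ψ| - 2 ∑ w_τ x⁺)⁺² ≤ mean ψ² + η`.
2. `∑ w_τ (m⁺)² + mean (|ψ| - 2 ∑ w_τ m⁺)⁺² ≤ mean ψ²`; and if `mean ψ² ≤ N` and `|ψ|` has a value larger than
`2N`, then `∑ w_τ (m⁺)² < N`.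
3. If `mean ψ² ≤ 1` and `|ψ|` has a value that is at least `3`, then the order is `0` at every point of the
edge, the point `3/2` included, and `limsup |x(ε)| ≤ √(1 - 1/g)`, where `g` is the order of the Galois
group, without any continuation. -/
theorem result : SizeInequality ∧ OrderInequality ∧ IrreducibleCombinations :=
  ⟨sizeInequality, orderInequality, irreducibleCombinations⟩

end Pool.Agent.Results.MP_7ed9c3_nt.EdgeSquareSumsH14
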